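import Pool.Agent.H62.SY.DomH
import Pool.Agent.H62.SY.SymC
import Pool.Agent.H32.SZ.Def

set_option autoImplicit false

/-!
# [H62 SZ DOMM] Convex domains in the closed ball of radius `M`, `π/2 < M < π`, about the pole
-/

namespace Pool.Agent.H62.SZ

open scoped RealInnerProductSpace MeasureTheory ENNReal NNReal
open MeasureTheory Set Metric
open Pool.Agent.H62.WS (E sg cst)
open Pool.Agent.H62.SS
open Pool.Agent.H32.SV (Hd)

variable {n : ℕ}

/-- open, nonempty, convex, the closure in an open hemisphere and in the closed ball of radius `M < π` about the pole -/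
structure Dm (M : ℝ) (Ω : Set (Sp n)) : Prop where
  hd : Hd Ω
  M_gt : Real.pi / 2 < M
  M_lt : M < Real.pi
  rad : ∀ p ∈ closure Ω, Pool.Agent.H62.SS.rad p ≤ M

theorem Dm.isOpen {M : ℝ} {Ω : Set (Sp n)} (h : Dm M Ω) : IsOpen Ω := h.hd.isOpen

theorem Dm.nonempty {M : ℝ} {Ω : Set (Sp n)} (h : Dm M Ω) : Ω.Nonempty := h.hd.nonempty

theorem Dm.conv {M : ℝ} {Ω : Set (Sp n)} (h : Dm M Ω) : Convex ℝ (cn Ω) := h.hd.conv

theorem Dm.seg_mem {M : ℝ} {Ω : Set (Sp n)} (h : Dm M Ω) {p x : Sp n} (hp : p ∈ Ω)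
    (hx : x ∈ closure Ω) {s t : ℝ} (hs : 0 < s) (ht : 0 ≤ t) :
    s • (p : E (n + 1)) + t • (x : E (n + 1)) ∈ cn Ω :=
  h.hd.seg_mem hp hx hs ht

theorem Dm.body_closure {M : ℝ} {Ω : Set (Sp n)} (h : Dm M Ω) : Body (closure Ω) := h.hd.body

theorem Dm.interior_closure {M : ℝ} {Ω : Set (Sp n)} (h : Dm M Ω) : interior (closure Ω) = Ω :=
  h.hd.interior_closure

theorem Dm.frontier_closure {M : ℝ} {Ω : Set (Sp n)} (h : Dm M Ω) :
    frontier (closure Ω) = frontier Ω := h.hd.frontier_closure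

theorem Dm.sep {M : ℝ} {Ω : Set (Sp n)} (h : Dm M Ω) {x : Sp n} (hx : x ∉ Ω) :
    ∃ ν : Sp n, (∀ y ∈ Ω, ⟪(ν : E (n + 1)), (y : E (n + 1))⟫ < 0) ∧
      0 ≤ ⟪(ν : E (n + 1)), (x : E (n + 1))⟫ := Pool.Agent.H62.SY.hd_sep h.hd hx

theorem bs_frontier_pos (hn : 2 ≤ n) {M : ℝ} {Ω : Set (Sp n)} (h : Dm M Ω) :
    0 < bs n (frontier Ω) := h.hd.bs_pos hn

theorem bs_frontier_lt_top (hn : 2 ≤ n) {M : ℝ} {Ω : Set (Sp n)} (h : Dm M Ω) :
    bs n (frontier Ω) < ∞ := h.hd.bs_lt_top hn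

theorem rad_lt_pi {Ω : Set (Sp n)} (h : Hd Ω) (ho : nor n ∈ Ω) {p : Sp n} (hp : p ∈ closure Ω) :
    rad p < Real.pi := by
  refine lt_of_le_of_ne (rad_le_pi p) fun h1 => ?_
  obtain ⟨w, hw⟩ := h.pole
  have h2 := hw _ (subset_closure ho)
  have h3 := hw _ hp
  have h4 : (p : E (n + 1)) 0 = -1 := by rw [← cos_rad, h1, Real.cos_pi]
  have h5 : (p : E (n + 1)) = -(nor n : E (n + 1)) := by
    have h6 : ‖(p : E (n + 1)) + (nor n : E (n + 1))‖ ^ 2 = 0 := by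
      rw [@norm_add_sq_real, norm_coe, norm_coe, real_inner_comm, inner_nor, h4]
      norm_num
    have h7 : (p : E (n + 1)) + (nor n : E (n + 1)) = 0 := by
      rw [← norm_eq_zero]
      exact pow_eq_zero_iff two_ne_zero |>.1 h6
    exact eq_neg_of_add_eq_zero_left h7
  rw [h5, inner_neg_left] at h3
  linarith

/-- the radius `M` exists -/
theorem exists_M {Ω : Set (Sp n)} (h : Hd Ω) (ho : nor n ∈ Ω) : ∃ M : ℝ, Dm M Ω := by
  have hpi := Real.pi_pos
  obtain ⟨x0, hx0, hmax⟩ := (isClosed_closure.isCompact : IsCompact (closure Ω)).exists_isMaxOn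
    h.nonempty.closure (f := fun x : Sp n => rad x) continuous_rad.continuousOn
  have h0 := rad_lt_pi h ho hx0
  refine ⟨max (rad x0) (3 * Real.pi / 4), h, ?_, max_lt h0 (by linarith), fun p hp =>
    (hmax hp : rad p ≤ rad x0).trans (le_max_left _ _)⟩
  exact lt_of_lt_of_le (by linarith) (le_max_right _ _)

end Pool.Agent.H62.SZ
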