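import Pool.Agent.H62.SS.Inner
import Pool.Agent.H62.SZ.DomM

set_option autoImplicit false

/-!
# [H62 SZ INNER] `SS/Inner` for domains in the open hemisphere about the pole
-/

namespace Pool.Agent.H62.SZ

open scoped RealInnerProductSpace MeasureTheory ENNReal NNReal
open MeasureTheory Set Metric
open Pool.Agent.H62.WS (E sg cst)
open Pool.Agent.H62.SS
open Pool.Agent.H32.SV (Hd)
open Pool.Agent.H32.SZ (Prof2)

variable {n : ℕ}

theorem inner_bound (hn : 2 ≤ n) {M : ℝ} {Ω : Set (Sp n)} (h : Dm M Ω) (o : Sp n) {t : ℝ} (h0 : 0 < t)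
    (h1 : t < Real.pi / 2) :
    bs n (frontier Ω ∩ gball o t) ≤ bs n (gsph o t \ Ω) := by
  have hpi : t < Real.pi := by linarith [Real.pi_pos]
  have hn1 : 1 ≤ n := by omega
  have hb2 := body_cball o h0.le h1
  have hb := h.body_closure.inter hb2
  have hmono := bs_mono hb hb2 inter_subset_right
  rw [frontier_cball hn1 o h0 hpi] at hmono
  have hint : interior (closure Ω ∩ cball o t) = Ω ∩ gball o t := by
    rw [interior_inter, h.interior_closure, interior_cball hn1 o h0 hpi]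
  have hcl : IsClosed (closure Ω ∩ cball o t) := hb.isCompact.isClosed
  have hfr : frontier (closure Ω ∩ cball o t) = (closure Ω ∩ cball o t) \ (Ω ∩ gball o t) := by
    rw [hcl.frontier_eq, hint]
  have hs1 : frontier Ω ∩ gball o t ⊆ frontier (closure Ω ∩ cball o t) := by
    rw [hfr]
    rintro x ⟨hx1, hx2⟩
    refine ⟨⟨frontier_subset_closure hx1, le_of_lt (show Real.cos t < _ from hx2)⟩, ?_⟩
    rintro ⟨hx3, -⟩
    rw [h.isOpen.frontier_eq] at hx1
    exact hx1.2 hx3
  have hs2 : gsph o t ∩ Ω ⊆ frontier (closure Ω ∩ cball o t) := by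
    rw [hfr]
    rintro x ⟨hx1, hx2⟩
    have hx1' : ⟪(o : E (n + 1)), (x : E (n + 1))⟫ = Real.cos t := hx1
    refine ⟨⟨subset_closure hx2, le_of_eq hx1'.symm⟩, ?_⟩
    rintro ⟨-, hx3⟩
    have hx3' : Real.cos t < ⟪(o : E (n + 1)), (x : E (n + 1))⟫ := hx3
    linarith
  have hdis : Disjoint (frontier Ω ∩ gball o t) (gsph o t ∩ Ω) := by
    rw [Set.disjoint_left]
    rintro x ⟨hx1, -⟩ ⟨-, hx2⟩
    rw [h.isOpen.frontier_eq] at hx1
    exact hx1.2 hx2
  have hmeas : MeasurableSet (gsph o t ∩ Ω) :=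
    (isClosed_gsph o t).measurableSet.inter h.isOpen.measurableSet
  have h2 := measure_mono (μ := bs n) (union_subset hs1 hs2)
  rw [measure_union hdis hmeas] at h2
  have h3 : bs n (gsph o t ∩ Ω) + bs n (gsph o t \ Ω) = bs n (gsph o t) :=
    measure_inter_add_sdiff _ h.isOpen.measurableSet
  have h4 : bs n (gsph o t ∩ Ω) ≠ ∞ := by
    refine ne_top_of_le_ne_top ?_ (measure_mono inter_subset_left)
    rw [bs_gsph hn o h0 hpi]
    exact ENNReal.mul_ne_top ENNReal.ofReal_ne_top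
      (ENNReal.mul_ne_top (Pool.Agent.H62.WS.cst_ne_top hn) (measure_ne_top _ _))
  have h5 : bs n (gsph o t ∩ Ω) + bs n (frontier Ω ∩ gball o t) ≤
      bs n (gsph o t ∩ Ω) + bs n (gsph o t \ Ω) := by
    rw [h3, add_comm]
    exact h2.trans hmono
  exact (ENNReal.add_le_add_iff_left h4).1 h5

end Pool.Agent.H62.SZ
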