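import Pool.Agent.H62.SS.BsPol

set_option autoImplicit false

/-!
# [H62 SZ OUTM] The lower bound of the boundary measure by projection, all radii

`|pol t θ - pol s η|² ≥ sin t sin s |θ - η|² ≥ c² |θ - η|²` if `c ≤ sin t, sin s`.
-/

namespace Pool.Agent.H62.SZ

open scoped RealInnerProductSpace MeasureTheory ENNReal NNReal
open MeasureTheory Set Metric
open Pool.Agent.H62.WS (E sg cst)
open Pool.Agent.H62.SS

variable {n : ℕ}

theorem mul_dist_le {c s s' : ℝ} (hc : 0 ≤ c) (h1 : c ≤ Real.sin s) (h2 : c ≤ Real.sin s')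
    (θ η : sphere (0 : E n) 1) : c * dist θ η ≤ dist (pol s θ) (pol s' η) := by
  have h3 := Real.cos_le_one (s - s')
  have h5 : (c * dist θ η) ^ 2 ≤ dist (pol s θ) (pol s' η) ^ 2 := by
    rw [dist_pol_sq]
    have h6 : c * c ≤ Real.sin s * Real.sin s' := mul_le_mul h1 h2 hc (hc.trans h1)
    have h7 := mul_le_mul_of_nonneg_right h6 (sq_nonneg (dist θ η))
    nlinarith
  exact (pow_le_pow_iff_left₀ (mul_nonneg hc dist_nonneg) dist_nonneg two_ne_zero).1 h5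

theorem outer_meas2 (hn : 2 ≤ n) {c : ℝ} (h0 : 0 < c) (h1 : c ≤ 1)
    {D : Set (sphere (0 : E n) 1)} (hD : MeasurableSet D) (K : Set (Sp n))
    (h : ∀ θ ∈ D, ∃ t ∈ Ioo 0 Real.pi, c ≤ Real.sin t ∧ pol t θ ∈ K) :
    ENNReal.ofReal (c ^ (n - 1)) * (cst n * sg n D) ≤
      bs n (K ∩ {p | ∃ θ ∈ D, ∃ t ∈ Ioo 0 Real.pi, c ≤ Real.sin t ∧ p = pol t θ}) := by
  have hpi := Real.pi_pos
  obtain ⟨r, hr⟩ : ∃ r : ℝ, r = Real.arcsin c := ⟨_, rfl⟩
  have hsr : Real.sin r = c := by rw [hr]; exact Real.sin_arcsin (by linarith) h1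
  have hr0 : 0 < r := by rw [hr]; exact Real.arcsin_pos.2 h0
  have hr1 : r ≤ Real.pi / 2 := by rw [hr]; exact Real.arcsin_le_pi_div_two c
  set S := K ∩ {p | ∃ θ ∈ D, ∃ t ∈ Ioo 0 Real.pi, c ≤ Real.sin t ∧ p = pol t θ} with hS
  have hex : ∀ p : Sp n, ∃ q : Sp n, ∀ θ, ∀ t ∈ Ioo 0 Real.pi, p = pol t θ → q = pol r θ := by
    intro p
    by_cases hp : ∃ θ : sphere (0 : E n) 1, ∃ t ∈ Ioo 0 Real.pi, p = pol t θ
    · obtain ⟨θ, t, ht1, ht3⟩ := hp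
      refine ⟨pol r θ, ?_⟩
      intro θ' t' h1' h3'
      have := pol_inj (r := t) (s := t') (θ := θ) (η := θ') ht1 h1' (ht3.symm.trans h3')
      rw [this.2]
    · refine ⟨p, ?_⟩
      intro θ t h1' h3'
      exact absurd ⟨θ, t, h1', h3'⟩ hp
  choose g hg using hex
  have hL : LipschitzOnWith 1 g S := by
    refine LipschitzOnWith.of_dist_le_mul ?_
    rintro p ⟨-, θ, -, t, ht1, ht2, ht3⟩ q ⟨-, η, -, s, hs1, hs2, hs3⟩
    rw [hg p θ t ht1 ht3, hg q η s hs1 hs3, ht3, hs3, NNReal.coe_one, one_mul,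
      dist_pol_pol (Real.sin_nonneg_of_nonneg_of_le_pi hr0.le (by linarith)), hsr]
    exact mul_dist_le h0.le ht2 hs2 θ η
  have h2 := Pool.Agent.H62.WS.euclideanHausdorffMeasure_image_le (n - 1) hL
  rw [ENNReal.coe_one, one_pow, one_mul] at h2
  have h3 := bs_pol_image hn hr0 (by linarith : r < Real.pi) hD
  rw [hsr] at h3
  rw [← h3]
  refine (measure_mono ?_).trans h2
  rintro _ ⟨θ, hθ, rfl⟩
  obtain ⟨t, ht1, ht2, ht3⟩ := h θ hθ
  exact ⟨pol t θ, ⟨ht3, θ, hθ, t, ht1, ht2, rfl⟩, hg _ θ t ht1 rfl⟩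

end Pool.Agent.H62.SZ
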