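import Pool.Agent.H62.SS.OutInt
import Pool.Agent.H62.SZ.OutMe
import Pool.Agent.H62.SZ.DomM

set_option autoImplicit false

/-!
# [H62 SZ OUTINT] `SS/OutInt` for domains in the open hemisphere about the pole
-/

namespace Pool.Agent.H62.SZ

open scoped RealInnerProductSpace MeasureTheory ENNReal NNReal
open MeasureTheory Set Metric
open Pool.Agent.H62.WS (E sg cst)
open Pool.Agent.H62.SS
open Pool.Agent.H32.SV (Hd)
open Pool.Agent.H32.SZ (Prof2)

variable {n : ℕ}


theorem outer_int (hn : 2 ≤ n) {M : ℝ} {Ω : Set (Sp n)} (h : Dm M Ω) (ho : nor n ∈ Ω) {φ : ℝ → ℝ≥0∞}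
    (hφ : Measurable φ) :
    cst n * ∫⁻ θ, φ (rho2 Ω θ) * ENNReal.ofReal (Real.sin (rho2 Ω θ) ^ (n - 1)) ∂sg n ≤
      ∫⁻ p in frontier Ω, φ (rad p) ∂bs n := by
  let μ₁ : Measure ℝ := (cst n • ((sg n).withDensity
    (fun θ => ENNReal.ofReal (Real.sin (rho2 Ω θ) ^ (n - 1))))).map (rho2 Ω)
  let μ₂ : Measure ℝ := ((bs n).restrict (frontier Ω)).map rad
  have hrm := measurable_rho h ho
  have hfm : Measurable (fun θ => ENNReal.ofReal (Real.sin (rho2 Ω θ) ^ (n - 1))) :=
    ((Real.measurable_sin.comp hrm).pow_const _).ennreal_ofReal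
  have hle : μ₁ ≤ μ₂ := by
    refine Measure.le_iff.2 fun A hA => ?_
    simp only [μ₁, μ₂]
    rw [Measure.map_apply hrm hA, Measure.map_apply continuous_rad.measurable hA,
      Measure.smul_apply, withDensity_apply _ (hrm hA),
      Measure.restrict_apply (continuous_rad.measurable hA), inter_comm, smul_eq_mul]
    exact outer_measure_le hn h ho hA
  have h1 := lintegral_mono' hle (le_refl φ)
  simp only [μ₁, μ₂] at h1
  have h2 : ∫⁻ θ, φ (rho2 Ω θ) ∂(sg n).withDensity
      (fun θ => ENNReal.ofReal (Real.sin (rho2 Ω θ) ^ (n - 1))) =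
      ∫⁻ θ, φ (rho2 Ω θ) * ENNReal.ofReal (Real.sin (rho2 Ω θ) ^ (n - 1)) ∂sg n := by
    have h3 := lintegral_withDensity_eq_lintegral_mul (sg n) hfm (hφ.comp hrm)
    refine Eq.trans h3 ?_
    apply lintegral_congr
    intro θ
    rw [Pi.mul_apply, mul_comm]
    rfl
  rw [lintegral_map hφ hrm, lintegral_map hφ continuous_rad.measurable, lintegral_smul_measure,
    h2, smul_eq_mul] at h1
  exact h1

end Pool.Agent.H62.SZ
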