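import Pool.Agent.H62.SS.StarN
import Pool.Agent.H62.SZ.InIntS
import Pool.Agent.H62.SZ.StarA
import Pool.Agent.H62.SZ.DomM

set_option autoImplicit false

/-!
# [H62 SZ STARN] `SS/StarN` for domains in the open hemisphere about the pole
-/

namespace Pool.Agent.H62.SZ

open scoped RealInnerProductSpace MeasureTheory ENNReal NNReal
open MeasureTheory Set Metric
open Pool.Agent.H62.WS (E sg cst)
open Pool.Agent.H62.SS
open Pool.Agent.H32.SV (Hd)
open Pool.Agent.H32.SZ (Prof2)

variable {n : ℕ}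


theorem star_neg (hn : 2 ≤ n) {M : ℝ} {Ω : Set (Sp n)} (h : Dm M Ω) (ho : nor n ∈ Ω)
    {R γ m κ r₀ : ℝ} {H : ℝ → ℝ} (P : Prof2 (n - 1) R γ m κ r₀ M H) :
    ∫ p in frontier Ω, max (-(γ * Fp H (rad p) ^ 2 - m)) 0 ∂bs n ≤
      (cst n).toReal * ∫ θ, (if r₀ ≤ rho2 Ω θ then 0 else
        ∫ t in rho2 Ω θ..r₀, 2 * γ * Fp H t * Fp' H t * Real.sin t ^ (n - 1)) ∂sg n := by
  have hpi := Real.pi_pos
  have hr0 := P.r0_pos
  have hr1 := P.r0_le
  have hF := continuous_Fp P.contDiff
  have hF' := continuous_Fp' P.contDiff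
  have hac : Continuous (fun t => γ * Fp H t ^ 2 - m) :=
    (continuous_const.mul (hF.pow 2)).sub continuous_const
  have hbc : Continuous (fun t => 2 * γ * Fp H t * Fp' H t) :=
    (continuous_const.mul hF).mul hF'
  have hbsc : Continuous (fun t => 2 * γ * Fp H t * Fp' H t * Real.sin t ^ (n - 1)) :=
    hbc.mul (Real.continuous_sin.pow _)
  have hb0 : ∀ t ∈ Ioo 0 r₀, 0 ≤ 2 * γ * Fp H t * Fp' H t := by
    intro t ht
    exact mul_nonneg (mul_nonneg (by linarith [P.gam_pos])
      (Fp_nonneg P ht.1.le (by linarith [ht.2]))) (P.mono t ht)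
  have hda : ∀ t, HasDerivAt (fun t => γ * Fp H t ^ 2) (2 * γ * Fp H t * Fp' H t) t := by
    intro t
    have h1 := ((hasDerivAt_Fp P.contDiff t).pow 2).const_mul γ
    refine h1.congr_deriv ?_
    norm_num
    ring
  have hftc : ∀ s, ∫ t in s..r₀, 2 * γ * Fp H t * Fp' H t = m - γ * Fp H s ^ 2 := by
    intro s
    rw [intervalIntegral.integral_eq_sub_of_hasDerivAt (fun t _ => hda t)
      (hbc.intervalIntegrable _ _), P.zero]
  have h1 := inner_int hn h ho hr0 hr1 hbc.measurable.ennreal_ofReal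
  -- left side
  have hL : ∫⁻ p in frontier Ω, (∫⁻ t in Ioo (rad p) r₀,
      ENNReal.ofReal (2 * γ * Fp H t * Fp' H t)) ∂bs n =
      ∫⁻ p in frontier Ω, ENNReal.ofReal (max (-(γ * Fp H (rad p) ^ 2 - m)) 0) ∂bs n := by
    apply setLIntegral_congr_fun isClosed_frontier.measurableSet
    intro p hp
    have hrp := rad_lt_of_mem_closure h ho (frontier_subset_closure hp)
    have hrn := rad_nonneg p
    simp only
    rcases lt_or_ge (rad p) r₀ with h2 | h2
    · have h3 := sq_le_of_lt P hrn h2.le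
      rw [max_eq_left (by linarith), setLIntegral_congr Ioo_ae_eq_Ioc,
        ← ofReal_integral_eq_lintegral_ofReal (hbc.integrableOn_Icc.mono_set Ioc_subset_Icc_self),
        ← intervalIntegral.integral_of_le h2.le, hftc]
      · congr 1
        ring
      · rw [← restrict_Ioo_eq_restrict_Ioc]
        filter_upwards [ae_restrict_mem measurableSet_Ioo] with t ht
        exact hb0 t ⟨hrn.trans_lt ht.1, ht.2⟩
    · have h3 := P.ge _ ⟨h2, h.rad _ (frontier_subset_closure hp)⟩
      rw [max_eq_right (by linarith), Ioo_eq_empty (not_lt.2 h2), Measure.restrict_empty,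
        lintegral_zero_measure, ENNReal.ofReal_zero]
  -- right side
  let g : ℝ → ℝ := fun s => if r₀ ≤ s then 0 else
    ∫ t in s..r₀, 2 * γ * Fp H t * Fp' H t * Real.sin t ^ (n - 1)
  have hPc : Continuous (fun s => ∫ t in s..r₀,
      2 * γ * Fp H t * Fp' H t * Real.sin t ^ (n - 1)) := by
    have h2 : Continuous (fun s => -∫ t in r₀..s,
        2 * γ * Fp H t * Fp' H t * Real.sin t ^ (n - 1)) :=
      (intervalIntegral.continuous_primitive (fun a b => hbsc.intervalIntegrable a b) r₀).neg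
    refine h2.congr ?_
    intro s
    rw [intervalIntegral.integral_symm s r₀, neg_neg]
  have hg : Measurable g := Measurable.ite measurableSet_Ici measurable_const hPc.measurable
  obtain ⟨C, hC0, hC⟩ := exists_bound_pi hPc
  have hgC : ∀ t ∈ Icc 0 Real.pi, |g t| ≤ C := by
    intro t ht
    simp only [g]
    split_ifs
    · simpa using hC0
    · exact hC t ht
  have hgi := integrable_rho h ho hg hgC
  have hbs0 : ∀ s, 0 ≤ s → ∀ᵐ t ∂(volume.restrict (Ioc s r₀)),
      0 ≤ 2 * γ * Fp H t * Fp' H t * Real.sin t ^ (n - 1) := by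
    intro s hs
    rw [← restrict_Ioo_eq_restrict_Ioc]
    filter_upwards [ae_restrict_mem measurableSet_Ioo] with t ht
    exact mul_nonneg (hb0 t ⟨hs.trans_lt ht.1, ht.2⟩)
      (pow_nonneg (Real.sin_nonneg_of_nonneg_of_le_pi (hs.trans ht.1.le) (by linarith [ht.2])) _)
  have hg0 : ∀ θ, 0 ≤ g (rho2 Ω θ) := by
    intro θ
    simp only [g]
    split_ifs with h2
    · exact le_rfl
    · push Not at h2
      rw [intervalIntegral.integral_of_le h2.le]
      exact integral_nonneg_of_ae (hbs0 _ (rho_pos h ho θ).le)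
  have hR : ∫⁻ θ, (∫⁻ t in Ico (rho2 Ω θ) r₀, ENNReal.ofReal (2 * γ * Fp H t * Fp' H t) *
      ENNReal.ofReal (Real.sin t ^ (n - 1))) ∂sg n =
      ENNReal.ofReal (∫ θ, g (rho2 Ω θ) ∂sg n) := by
    rw [ofReal_integral_eq_lintegral_ofReal hgi (Filter.Eventually.of_forall hg0)]
    apply lintegral_congr
    intro θ
    have hrp := rho_pos h ho θ
    simp only [g]
    split_ifs with h2
    · rw [Ico_eq_empty (not_lt.2 h2), Measure.restrict_empty, lintegral_zero_measure,
        ENNReal.ofReal_zero]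
    · push Not at h2
      rw [intervalIntegral.integral_of_le h2.le,
        ofReal_integral_eq_lintegral_ofReal (hbsc.integrableOn_Icc.mono_set Ioc_subset_Icc_self)
        (hbs0 _ hrp.le), ← setLIntegral_congr Ioo_ae_eq_Ioc, ← setLIntegral_congr Ioo_ae_eq_Ico]
      apply setLIntegral_congr_fun measurableSet_Ioo
      intro t ht
      simp only
      rw [ENNReal.ofReal_mul (hb0 t ⟨hrp.trans ht.1, ht.2⟩)]
  rw [hL, hR] at h1
  have hmc : Continuous (fun t => max (-(γ * Fp H t ^ 2 - m)) 0) := hac.neg.max continuous_const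
  have hmc2 : Continuous (fun p : Sp n => max (-(γ * Fp H (rad p) ^ 2 - m)) 0) :=
    hmc.comp continuous_rad
  have hnn : 0 ≤ᵐ[(bs n).restrict (frontier Ω)]
      fun p : Sp n => max (-(γ * Fp H (rad p) ^ 2 - m)) 0 :=
    Filter.Eventually.of_forall fun p => le_max_right _ _
  rw [integral_eq_lintegral_of_nonneg_ae hnn hmc2.aestronglyMeasurable]
  have h2 := ENNReal.toReal_mono (ENNReal.mul_ne_top (Pool.Agent.H62.WS.cst_ne_top hn)
    ENNReal.ofReal_ne_top) h1
  rw [ENNReal.toReal_mul, ENNReal.toReal_ofReal (integral_nonneg hg0)] at h2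
  exact h2

end Pool.Agent.H62.SZ
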