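import Pool.Agent.H62.SS.Star
import Pool.Agent.H62.SZ.StarB
import Pool.Agent.H62.SZ.DomM

set_option autoImplicit false

/-!
# [H62 SZ STAR] `SS/Star` for domains in the open hemisphere about the pole
-/

namespace Pool.Agent.H62.SZ

open scoped RealInnerProductSpace MeasureTheory ENNReal NNReal
open MeasureTheory Set Metric
open Pool.Agent.H62.WS (E sg cst)
open Pool.Agent.H62.SS
open Pool.Agent.H32.SV (Hd)
open Pool.Agent.H32.SZ (Prof2)

variable {n : ℕ}


theorem AA_ge {M : ℝ} {Ω : Set (Sp n)} (h : Dm M Ω) (ho : nor n ∈ Ω) {N : ℕ}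
    {R γ m κ r₀ : ℝ} {H : ℝ → ℝ} (P : Prof2 N R γ m κ r₀ M H) (θ : sphere (0 : E n) 1) :
    -m * Real.sin R ^ N + κ * VS N R ≤ AA N γ m κ r₀ H (rho2 Ω θ) := by
  by_cases h1 : rho2 Ω θ = R
  · rw [h1, P.eq]
  · exact (P.strict _ ⟨(rho_pos h ho θ).le, rho_leM h ho θ⟩ h1).le

theorem star_int' (hn : 2 ≤ n) {M : ℝ} {Ω : Set (Sp n)} (h : Dm M Ω) (ho : nor n ∈ Ω)
    {R γ m κ r₀ : ℝ} {H : ℝ → ℝ} (P : Prof2 (n - 1) R γ m κ r₀ M H) :
    ∫ θ, AA (n - 1) γ m κ r₀ H (rho2 Ω θ) ∂sg n ≤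
      γ * (∫ p in frontier Ω, Fp H (rad p) ^ 2 ∂bs n) / (cst n).toReal -
        m * ((bs n (frontier Ω)).toReal / (cst n).toReal) -
        (∫ p in Ω, hp (n - 1) H (rad p) ∂sg (n + 1)) + κ * (sg (n + 1) Ω).toReal := by
  have h1 := star_int hn h ho P
  have hF : Integrable (fun p => γ * Fp H (rad p) ^ 2) ((bs n).restrict (frontier Ω)) :=
    integrable_bs_of_continuousB hn h
      (continuous_const.mul (((continuous_Fp P.contDiff).comp continuous_rad).pow 2))
  have hm : Integrable (fun _ : Sp n => m) ((bs n).restrict (frontier Ω)) :=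
    integrable_bs_of_continuousB hn h continuous_const
  have hh : Integrable (fun p : Sp n => hp (n - 1) H (rad p)) ((sg (n + 1)).restrict Ω) :=
    (((continuous_hp (n - 1) P.contDiff).comp continuous_rad).integrable_of_hasCompactSupport
      (HasCompactSupport.of_compactSpace _)).integrableOn
  have hk : Integrable (fun _ : Sp n => κ) ((sg (n + 1)).restrict Ω) :=
    (integrable_const κ).integrableOn
  rw [integral_sub hF hm, integral_sub hh hk, integral_const_mul, integral_const, integral_const,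
    measureReal_restrict_apply_univ, measureReal_restrict_apply_univ, smul_eq_mul, smul_eq_mul]
    at h1
  refine h1.trans (le_of_eq ?_)
  simp only [Measure.real]
  ring

theorem star (hn : 2 ≤ n) {M : ℝ} {Ω : Set (Sp n)} (h : Dm M Ω) (ho : nor n ∈ Ω)
    {R γ m κ r₀ : ℝ} {H : ℝ → ℝ} (P : Prof2 (n - 1) R γ m κ r₀ M H) :
    m * ((bs n (frontier Ω)).toReal / (cst n).toReal -
        Real.sin R ^ (n - 1) * (sg n univ).toReal) +
      κ * (VS (n - 1) R * (sg n univ).toReal - (sg (n + 1) Ω).toReal) ≤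
    γ * (∫ p in frontier Ω, Fp H (rad p) ^ 2 ∂bs n) / (cst n).toReal -
      ∫ p in Ω, hp (n - 1) H (rad p) ∂sg (n + 1) := by
  have h1 := star_int' hn h ho P
  have h2 : (-m * Real.sin R ^ (n - 1) + κ * VS (n - 1) R) * (sg n univ).toReal ≤
      ∫ θ, AA (n - 1) γ m κ r₀ H (rho2 Ω θ) ∂sg n := by
    have h3 := integral_mono (μ := sg n)
      (integrable_const (-m * Real.sin R ^ (n - 1) + κ * VS (n - 1) R))
      (integrable_AA hn h ho P) (fun θ => AA_ge h ho P θ)
    rw [integral_const, smul_eq_mul, mul_comm] at h3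
    exact h3
  nlinarith [h1, h2]

theorem star_eq (hn : 2 ≤ n) {M : ℝ} {Ω : Set (Sp n)} (h : Dm M Ω) (ho : nor n ∈ Ω)
    {R γ m κ r₀ : ℝ} {H : ℝ → ℝ} (P : Prof2 (n - 1) R γ m κ r₀ M H)
    (he : γ * (∫ p in frontier Ω, Fp H (rad p) ^ 2 ∂bs n) / (cst n).toReal -
        ∫ p in Ω, hp (n - 1) H (rad p) ∂sg (n + 1) ≤
      m * ((bs n (frontier Ω)).toReal / (cst n).toReal -
        Real.sin R ^ (n - 1) * (sg n univ).toReal) +
      κ * (VS (n - 1) R * (sg n univ).toReal - (sg (n + 1) Ω).toReal)) :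
    ∀ᵐ θ ∂sg n, rho2 Ω θ = R := by
  have h1 := star_int' hn h ho P
  have hi := integrable_AA hn h ho P
  have hc : Integrable (fun _ : sphere (0 : E n) 1 =>
      -m * Real.sin R ^ (n - 1) + κ * VS (n - 1) R) (sg n) := integrable_const _
  have h3 : ∫ θ, (AA (n - 1) γ m κ r₀ H (rho2 Ω θ) -
      (-m * Real.sin R ^ (n - 1) + κ * VS (n - 1) R)) ∂sg n ≤ 0 := by
    rw [integral_sub hi hc, integral_const, smul_eq_mul]
    have h4 : (sg n).real univ = (sg n univ).toReal := rfl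
    rw [h4]
    nlinarith [h1, he]
  have h0 : ∀ θ, 0 ≤ AA (n - 1) γ m κ r₀ H (rho2 Ω θ) -
      (-m * Real.sin R ^ (n - 1) + κ * VS (n - 1) R) := fun θ => by
    linarith [AA_ge h ho P θ]
  have h5 : ∫ θ, (AA (n - 1) γ m κ r₀ H (rho2 Ω θ) -
      (-m * Real.sin R ^ (n - 1) + κ * VS (n - 1) R)) ∂sg n = 0 :=
    le_antisymm h3 (integral_nonneg h0)
  have h6 := (integral_eq_zero_iff_of_nonneg h0 (hi.sub hc)).1 h5
  filter_upwards [h6] with θ h7
  by_contra h8
  have h9 := P.strict _ ⟨(rho_pos h ho θ).le, rho_leM h ho θ⟩ h8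
  simp only [Pi.zero_apply] at h7
  linarith

end Pool.Agent.H62.SZ
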