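import Pool.Agent.H62.SZ.Mid
import Pool.Agent.H62.SZ.Star
import Pool.Agent.H62.SZ.EqualS
import Pool.Agent.H62.SY.Main

set_option autoImplicit false

/-!
# [H62 SZ CASEZ] The Weinstock inequality for all convex domains with closure in an open hemisphere, from a profile beyond the equator

`M` from the compactness of `closure Ω × closure Ω` (no antipodal points), then the profile up to `M`, then the centre.
-/

namespace Pool.Agent.H62.SZ

open scoped RealInnerProductSpace MeasureTheory ENNReal NNReal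
open MeasureTheory Set Metric
open Pool.Agent.H62.WS (E sg cst)
open Pool.Agent.H62.SS
open Pool.Agent.H32.SV (Hd Weinstock)
open Pool.Agent.H32.SZ (Prof2)

variable {n : ℕ}

/-- the diameter of the closure is less than `π` -/
theorem exists_diam {Ω : Set (Sp n)} (h : Hd Ω) : ∃ M : ℝ, Real.pi / 2 < M ∧ M < Real.pi ∧
    ∀ p ∈ closure Ω, ∀ q ∈ closure Ω, Real.cos M ≤ ⟪(p : E (n + 1)), (q : E (n + 1))⟫ := by
  have hpi := Real.pi_pos
  have hcomp : IsCompact (closure Ω) := isClosed_closure.isCompact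
  obtain ⟨⟨p0, q0⟩, ⟨hp0, hq0⟩, hmin⟩ := (hcomp.prod hcomp).exists_isMinOn
    (h.nonempty.closure.prod h.nonempty.closure)
    (f := fun z : Sp n × Sp n => ⟪(z.1 : E (n + 1)), (z.2 : E (n + 1))⟫)
    continuous_inner2.continuousOn
  obtain ⟨w, hw⟩ := h.pole
  have h1 : -1 < ⟪(p0 : E (n + 1)), (q0 : E (n + 1))⟫ := by
    by_contra hcon
    push Not at hcon
    have h6 : ‖(p0 : E (n + 1)) + (q0 : E (n + 1))‖ ^ 2 ≤ 0 := by
      rw [@norm_add_sq_real, norm_coe, norm_coe]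
      linarith
    have h7 : (p0 : E (n + 1)) + (q0 : E (n + 1)) = 0 := by
      rw [← norm_eq_zero]
      nlinarith [norm_nonneg ((p0 : E (n + 1)) + (q0 : E (n + 1)))]
    have h8 : ⟪(p0 : E (n + 1)) + (q0 : E (n + 1)), w⟫ = 0 := by rw [h7, inner_zero_left]
    rw [inner_add_left] at h8
    linarith [hw p0 hp0, hw q0 hq0]
  have h2 : ⟪(p0 : E (n + 1)), (q0 : E (n + 1))⟫ ≤ 1 := (inner_mem_Icc p0 q0).2
  have h3 : Real.arccos ⟪(p0 : E (n + 1)), (q0 : E (n + 1))⟫ < Real.pi := by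
    rw [← Real.arccos_neg_one]
    exact Real.arccos_lt_arccos (by norm_num) h1 h2
  refine ⟨max (Real.arccos ⟪(p0 : E (n + 1)), (q0 : E (n + 1))⟫) (3 * Real.pi / 4),
    lt_of_lt_of_le (by linarith) (le_max_right _ _), max_lt h3 (by linarith), fun p hp q hq => ?_⟩
  have h4 : ⟪(p0 : E (n + 1)), (q0 : E (n + 1))⟫ ≤ ⟪(p : E (n + 1)), (q : E (n + 1))⟫ :=
    hmin (show (p, q) ∈ closure Ω ×ˢ closure Ω from ⟨hp, hq⟩)
  refine le_trans ?_ h4
  have h5 : Real.cos (Real.arccos ⟪(p0 : E (n + 1)), (q0 : E (n + 1))⟫) =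
      ⟪(p0 : E (n + 1)), (q0 : E (n + 1))⟫ := Real.cos_arccos h1.le h2
  conv_rhs => rw [← h5]
  exact Real.cos_le_cos_of_nonneg_of_le_pi (Real.arccos_nonneg _)
    (max_lt h3 (by linarith)).le (le_max_left _ _)

theorem integral_Fp_pos2 (hn : 2 ≤ n) {Ω : Set (Sp n)} (h : Hd Ω) (ho : nor n ∈ Ω) {H : ℝ → ℝ}
    (hH : ContDiff ℝ 1 H) (hp : ∀ c ∈ Icc (-1 : ℝ) 1, 0 < H c) :
    0 < ∫ p in frontier Ω, Fp H (rad p) ^ 2 ∂bs n := by
  have hpi := Real.pi_pos
  have hc : Continuous (fun p : Sp n => Fp H (rad p) ^ 2) :=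
    (((hH.continuous.comp Real.continuous_cos).mul Real.continuous_sin).comp continuous_rad).pow 2
  have hfm : IsFiniteMeasure ((bs n).restrict (frontier Ω)) :=
    ⟨by rw [Measure.restrict_apply_univ]; exact h.bs_lt_top hn⟩
  have hi : IntegrableOn (fun p : Sp n => Fp H (rad p) ^ 2) (frontier Ω) (bs n) :=
    hc.integrable_of_hasCompactSupport (HasCompactSupport.of_compactSpace _)
  rw [setIntegral_pos_iff_support_of_nonneg_ae
    (Filter.Eventually.of_forall fun p => sq_nonneg _) hi]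
  refine (h.bs_pos hn).trans_le (measure_mono fun p hp' => ⟨?_, hp'⟩)
  have h1 : rad p < Real.pi := rad_lt_pi h ho (frontier_subset_closure hp')
  have h2 : 0 < rad p := by
    rcases (rad_nonneg p).lt_or_eq with h3 | h3
    · exact h3
    · exfalso
      obtain ⟨θ, hθ⟩ := exists_pol (by omega : 1 ≤ n) p
      rw [← h3, pol_zero] at hθ
      rw [hθ, h.isOpen.frontier_eq] at hp'
      exact hp'.2 ho
  have h3 : 0 < Fp H (rad p) := by
    unfold Fp
    exact mul_pos (hp _ ⟨Real.neg_one_le_cos _, Real.cos_le_one _⟩)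
      (Real.sin_pos_of_pos_of_lt_pi h2 h1)
  rw [Function.mem_support]
  positivity

/-- the image of a domain with `⟪q,·⟫ ≥ cos M` when the point `q` is moved to the pole -/
theorem dm_move {Ω : Set (Sp n)} (h : Hd Ω) {M : ℝ} (hM : Real.pi / 2 < M) (hM' : M < Real.pi)
    {q : Sp n} (hq : ∀ x ∈ closure Ω, Real.cos M ≤ ⟪(q : E (n + 1)), (x : E (n + 1))⟫)
    {Φ : E (n + 1) ≃ₗᵢ[ℝ] E (n + 1)} (hΦ : act Φ q = nor n) : Dm M (act Φ '' Ω) where
  hd := {
    isOpen := (act Φ).toHomeomorph.isOpenMap _ h.isOpen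
    nonempty := h.nonempty.image _
    conv := by
      rw [cn_act]
      exact h.conv.linear_image _
    pole := by
      obtain ⟨w, hw⟩ := h.pole
      refine ⟨Φ w, ?_⟩
      rw [← Pool.Agent.H62.SY.act_closure]
      rintro _ ⟨x, hx, rfl⟩
      rw [act_coe, Φ.inner_map_map]
      exact hw x hx }
  M_gt := hM
  M_lt := hM'
  rad := by
    rw [← Pool.Agent.H62.SY.act_closure]
    rintro _ ⟨x, hx, rfl⟩
    have h1 := hq x hx
    rw [← inner_act Φ, hΦ, inner_nor] at h1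
    have h2 : Real.arccos (((act Φ x : Sp n) : E (n + 1)) 0) ≤ Real.arccos (Real.cos M) :=
      Real.arccos_le_arccos h1
    rw [Real.arccos_cos (by linarith [Real.pi_pos]) hM'.le] at h2
    exact h2

/-- the Weinstock inequality from profiles beyond the equator -/
theorem case_all (hn : 3 ≤ n) {Ω : Set (Sp n)} (h : Hd Ω) {R : ℝ} (h0 : 0 < R)
    (h1 : R < Real.pi / 2)
    (hP : ∀ M : ℝ, Real.pi / 2 < M → M < Real.pi → ∃ (m κ r₀ : ℝ) (H : ℝ → ℝ),
      Prof2 (n - 1) R (gS (n - 1) R) m κ r₀ M H)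
    (hR : bs n (frontier Ω) = bs n (gsph (nor n) R)) :
    sigma1 Ω ≤ gS (n - 1) R / (cst n).toReal ∧
      (gS (n - 1) R / (cst n).toReal ≤ sigma1 Ω → ∃ q, Ω = gball q R) := by
  have hn2 : 2 ≤ n := by omega
  have hpi := Real.pi_pos
  obtain ⟨M, hM, hM', hdiam⟩ := exists_diam h
  obtain ⟨m, κ, r₀, H, P⟩ := hP M hM hM'
  obtain ⟨q, hqΩ, hint'⟩ := exists_center_all hn2 h P.contDiff P.pos
  obtain ⟨Φ, hΦ⟩ := exists_act q (nor n)
  have hoΦ : nor n ∈ act Φ '' Ω := ⟨q, hqΩ, hΦ⟩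
  have hint : ∀ i : Fin n, ∫ p in frontier (act Φ '' Ω), uH H i (p : E (n + 1)) ∂bs n = 0 :=
    Pool.Agent.H62.SY.move_int hint' hΦ
  have hd : Dm M (act Φ '' Ω) := dm_move h hM hM' (fun x hx => hdiam q (subset_closure hqΩ) x hx) hΦ
  set W : Set (Sp n) := act Φ '' Ω with hW
  have hbs : bs n (frontier W) = bs n (gsph (nor n) R) := by
    rw [hW, ← act_frontier, bs_act_image, hR]
  have hc := cst_toReal_pos hn2
  have hA := bs_toReal_of_eq hn2 h0 (by linarith) hbs
  have hvol : (sg (n + 1) W).toReal ≤ VS (n - 1) R * (sg n univ).toReal := by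
    rw [← sg_gball_toReal hn2 (nor n) h0.le (by linarith)]
    exact ENNReal.toReal_mono (measure_ne_top _ _)
      (Pool.Agent.H32.SV.iso_hd hn2 hd.hd h0 h1 hbs)
  have hfin : bs n (frontier W) < ∞ := bs_frontier_lt_top hn2 hd
  have hup := sigma1_mul_le hn2 hfin P.contDiff hint
  have hst := star hn2 hd hoΦ P
  have hI := integral_Fp_pos2 hn2 hd.hd hoΦ P.contDiff P.pos
  have hAz : (bs n (frontier W)).toReal / (cst n).toReal -
      Real.sin R ^ (n - 1) * (sg n univ).toReal = 0 := by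
    rw [hA]
    field_simp
    ring
  have hκ : 0 ≤ κ * (VS (n - 1) R * (sg n univ).toReal - (sg (n + 1) W).toReal) :=
    mul_nonneg P.kap_nonneg (by linarith)
  rw [hAz, mul_zero, zero_add] at hst
  have hsig : sigma1 W = sigma1 Ω := sigma1_act Φ Ω
  rw [hsig] at hup
  set I := ∫ p in frontier W, Fp H (rad p) ^ 2 ∂bs n with hIdef
  have e1 : gS (n - 1) R * I / (cst n).toReal = gS (n - 1) R / (cst n).toReal * I := by ring
  constructor
  · have h2 : sigma1 Ω * I ≤ gS (n - 1) R / (cst n).toReal * I := by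
      rw [← e1]
      linarith
    exact le_of_mul_le_mul_right h2 hI
  · intro hge
    have h2 : gS (n - 1) R / (cst n).toReal * I ≤ sigma1 Ω * I :=
      mul_le_mul_of_nonneg_right hge hI.le
    have h3 := star_eq hn2 hd hoΦ P (by rw [hAz, mul_zero, zero_add, ← hIdef]; linarith)
    have h4 := eq_ball_of_rho hn2 hd hoΦ h0 (by linarith) h3
    refine ⟨act Φ.symm (nor n), ?_⟩
    rw [← act_gball, ← h4, hW, image_image]
    simp only [act_symm_act, image_id']

/-- the Weinstock inequality for all convex domains (closure in an open hemisphere), from profiles beyond the equator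
at the radius of the comparison ball -/
theorem weinstock_all (hn : 3 ≤ n) {Ω : Set (Sp n)} (hΩ : IsOpen Ω) (hne : Ω.Nonempty)
    (hc : GConvex Ω)
    (hw : ∃ w : Sp n, ∀ p ∈ closure Ω, 0 < ⟪(w : E (n + 1)), (p : E (n + 1))⟫)
    (hP : ∀ R : ℝ, 0 < R → R < Real.pi / 2 → bs n (gsph (nor n) R) = bs n (frontier Ω) →
      ∀ M : ℝ, Real.pi / 2 < M → M < Real.pi → ∃ (m κ r₀ : ℝ) (H : ℝ → ℝ),
      Prof2 (n - 1) R (gS (n - 1) R) m κ r₀ M H) : Weinstock Ω := by
  have hn2 : 2 ≤ n := by omega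
  have hpi := Real.pi_pos
  obtain ⟨w, hw⟩ := hw
  have hpole : ∃ w : E (n + 1), ∀ x ∈ closure Ω, 0 < ⟪(x : E (n + 1)), w⟫ :=
    ⟨w, fun x hx => by rw [real_inner_comm]; exact hw x hx⟩
  have h : Hd Ω := ⟨hΩ, hne, Pool.Agent.H32.SV.convex_cn_of_hemi hc
    (hpole.imp fun _ h1 x hx => h1 x (subset_closure hx)), hpole⟩
  obtain ⟨R, hR0, hR1, hR⟩ := h.radius hn2
  obtain ⟨h5, h6⟩ := case_all hn h hR0 hR1 (hP R hR0 hR1 (hR (nor n))) (hR (nor n)).symm
  exact Pool.Agent.H62.SY.finish hn h hw hR0 hR1 hR h5 h6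

end Pool.Agent.H62.SZ
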