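import Pool.Agent.H62.SY.CentG

set_option autoImplicit false

/-!
# [H62 SZ MID] A point of the domain with the closure in the open hemisphere about it; the centre of any convex domain

If the open convex cones `cn Ω` and `W = {w | ⟪w,x⟫ > 0 on closure Ω}` were disjoint, a functional `⟪v,·⟫` would be negative on `cn Ω` and positive on `W`; then `-v + ε w ∈ W` for `w ∈ W`, `ε > 0`, so `-‖v‖² + ε ⟪v,w⟫ > 0`, a contradiction for small `ε`.
-/

namespace Pool.Agent.H62.SZ

open scoped RealInnerProductSpace MeasureTheory ENNReal NNReal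
open MeasureTheory Set Metric
open Pool.Agent.H62.WS (E sg cst)
open Pool.Agent.H62.SS
open Pool.Agent.H62.SY
open Pool.Agent.H32.SV (Hd)

variable {n : ℕ}

theorem exists_mid {Ω : Set (Sp n)} (h : Hd Ω) :
    ∃ p ∈ Ω, ∀ x ∈ closure Ω, 0 < ⟪(p : E (n + 1)), (x : E (n + 1))⟫ := by
  have hcomp : IsCompact (closure Ω) := isClosed_closure.isCompact
  obtain ⟨W, hW⟩ : ∃ W : Set (E (n + 1)),
      W = {w : E (n + 1) | ∀ x ∈ closure Ω, 0 < ⟪w, (x : E (n + 1))⟫} := ⟨_, rfl⟩
  have hWc : Convex ℝ W := by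
    rw [hW]
    intro a ha b hb s t hs ht hst x hx
    rw [inner_add_left, real_inner_smul_left, real_inner_smul_left]
    rcases hs.eq_or_lt with h0 | h0
    · have : t = 1 := by linarith
      rw [← h0, this, zero_mul, zero_add, one_mul]
      exact hb x hx
    · exact add_pos_of_pos_of_nonneg (mul_pos h0 (ha x hx)) (mul_nonneg ht (hb x hx).le)
  by_contra hcon
  push Not at hcon
  have hdis : Disjoint (cn Ω) W := by
    rw [Set.disjoint_left]
    rintro _ ⟨t, ht, p, hp, rfl⟩ h2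
    rw [hW] at h2
    obtain ⟨x, hx, hx2⟩ := hcon p hp
    have h3 := h2 x hx
    rw [real_inner_smul_left] at h3
    nlinarith
  obtain ⟨f, u, hf1, hf2⟩ := geometric_hahn_banach_open h.conv (isOpen_cn h.isOpen) hWc hdis
  let v := (InnerProductSpace.toDual ℝ (E (n + 1))).symm f
  have hv : ∀ a, ⟪v, a⟫ = f a := fun a => InnerProductSpace.toDual_symm_apply
  obtain ⟨w, hw⟩ := h.pole
  have hwW : ∀ ε : ℝ, 0 < ε → ε • w ∈ W := by
    intro ε hε
    rw [hW]
    intro x hx
    rw [real_inner_smul_left, real_inner_comm]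
    exact mul_pos hε (hw x hx)
  -- `u ≤ 0`
  have hu : u ≤ 0 := by
    by_contra hcon2
    push Not at hcon2
    have h1 := hf2 _ (hwW (u / (2 * (|f w| + 1))) (by positivity))
    rw [map_smul, smul_eq_mul] at h1
    have h2 : u / (2 * (|f w| + 1)) * f w ≤ u / 2 := by
      rw [div_mul_eq_mul_div, div_le_div_iff₀ (by positivity) (by norm_num)]
      nlinarith [le_abs_self (f w), abs_nonneg (f w)]
    linarith
  have hneg : ∀ a ∈ cn Ω, f a < 0 := fun a ha => (hf1 a ha).trans_le hu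
  -- `u ≥ 0`
  obtain ⟨q, hq⟩ := h.nonempty
  have hqc : (q : E (n + 1)) ∈ cn Ω := coe_mem_cn.2 hq
  have hu0 : 0 ≤ u := by
    by_contra hcon2
    push Not at hcon2
    have h0 := hneg _ hqc
    have h1 := hf1 _ (smul_mem_cn hqc (t := u / (2 * f q)) (div_pos_of_neg_of_neg hcon2 (by linarith)))
    rw [map_smul, smul_eq_mul] at h1
    have h2 : u / (2 * f q) * f q = u / 2 := by
      have hq0 := h0.ne
      field_simp
    rw [h2] at h1
    linarith
  have hvne : v ≠ 0 := by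
    intro h0
    have h3 := hneg _ hqc
    rw [← hv, h0, inner_zero_left] at h3
    exact lt_irrefl _ h3
  have hvpos : 0 < ‖v‖ := norm_pos_iff.2 hvne
  -- `-v + ε w ∈ W`
  have h5 : ∀ ε : ℝ, 0 < ε → -v + ε • w ∈ W := by
    intro ε hε
    rw [hW]
    intro x hx
    rw [inner_add_left, inner_neg_left, real_inner_smul_left]
    have h6 : ⟪v, (x : E (n + 1))⟫ ≤ 0 := by
      have h7 : closure Ω ⊆ {x : Sp n | ⟪v, (x : E (n + 1))⟫ ≤ 0} :=
        closure_minimal (fun y hy => by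
          rw [mem_setOf_eq, hv]
          exact (hneg _ (coe_mem_cn.2 hy)).le)
          (isClosed_le (continuous_const.inner continuous_subtype_val) continuous_const)
      exact h7 hx
    have h8 : 0 < ε * ⟪w, (x : E (n + 1))⟫ := by
      rw [real_inner_comm]
      exact mul_pos hε (hw x hx)
    linarith
  have h6 : ∀ ε : ℝ, 0 < ε → ‖v‖ ^ 2 ≤ ε * f w := by
    intro ε hε
    have h7 := hf2 _ (h5 ε hε)
    rw [map_add, map_neg, map_smul, smul_eq_mul, ← hv v, real_inner_self_eq_norm_sq] at h7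
    linarith
  have h7 := h6 (‖v‖ ^ 2 / (2 * (|f w| + 1))) (by positivity)
  have h8 : ‖v‖ ^ 2 / (2 * (|f w| + 1)) * f w ≤ ‖v‖ ^ 2 / 2 := by
    rw [div_mul_eq_mul_div, div_le_div_iff₀ (by positivity) (by norm_num)]
    nlinarith [le_abs_self (f w), abs_nonneg (f w), sq_nonneg ‖v‖]
  have h9 : 0 < ‖v‖ ^ 2 := by positivity
  linarith

/-- the centre of any convex domain (fixed by the given symmetries) -/
theorem exists_center_S (hn : 2 ≤ n) {Ω : Set (Sp n)} (h : Hd Ω)
    {G : Set (E (n + 1) ≃ₗᵢ[ℝ] E (n + 1))} (hG : ∀ Φ ∈ G, act Φ '' Ω = Ω)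
    {H : ℝ → ℝ}
    (hH : ContDiff ℝ 1 H) (hp : ∀ c ∈ Icc (-1 : ℝ) 1, 0 < H c) :
    ∃ o ∈ Ω, (∀ Φ ∈ G, Φ (o : E (n + 1)) = o) ∧ ∀ v : E (n + 1), ⟪(o : E (n + 1)), v⟫ = 0 →
      ∫ x in frontier Ω, H ⟪(o : E (n + 1)), (x : E (n + 1))⟫ * ⟪v, (x : E (n + 1))⟫ ∂bs n =
        0 := by
  have hfin := h.bs_lt_top hn
  obtain ⟨p, hpΩ, hpG⟩ := exists_fixed_point h hG
  obtain ⟨V, hV⟩ : ∃ V : Set (Sp n), V = {a : Sp n | ∀ Φ ∈ G, Φ (a : E (n + 1)) = (a : E (n + 1))} := ⟨_, rfl⟩
  have hVc : IsClosed V := by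
    have : V = ⋂ Φ ∈ G, {a : Sp n | Φ (a : E (n + 1)) = (a : E (n + 1))} := by
      rw [hV]
      ext a
      simp
    rw [this]
    exact isClosed_biInter fun Φ _ =>
      isClosed_eq (Φ.continuous.comp continuous_subtype_val) continuous_subtype_val
  obtain ⟨o, hoV, ho⟩ := exists_min_on hH hfin hVc ⟨p, by rw [hV]; exact hpG⟩
  have hoG : ∀ Φ ∈ G, Φ (o : E (n + 1)) = o := by
    rw [hV] at hoV
    exact hoV
  have hstat : ∀ v : Sp n, (∀ Φ ∈ G, Φ (v : E (n + 1)) = v) →
      ⟪(o : E (n + 1)), (v : E (n + 1))⟫ = 0 →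
      ∫ x in frontier Ω, H ⟪(o : E (n + 1)), (x : E (n + 1))⟫ *
        ⟪(v : E (n + 1)), (x : E (n + 1))⟫ ∂bs n = 0 := by
    intro v hvG hv
    refine center_unit_on hH hfin ho hv fun t a ha => ?_
    rw [hV, mem_setOf_eq]
    intro Φ hΦ
    rw [ha, map_add, map_smul, map_smul, hoG Φ hΦ, hvG Φ hΦ]
  refine ⟨o, ?_, hoG, ?_⟩
  · by_contra hoΩ
    obtain ⟨ν₀, hν01, hν02⟩ := hd_sep h hoΩ
    obtain ⟨c, hcG, hc⟩ := exists_centroid h hG
    have hc1 := hc ν₀ hν01
    -- a fixed separating vector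
    obtain ⟨ν₁, ⟨hν11, hν12, hν13⟩, hν1G⟩ := exists_fixed_mem
      (P := {ν : E (n + 1) | (∀ y ∈ Ω, ⟪ν, (y : E (n + 1))⟫ ≤ 0) ∧ 0 ≤ ⟪ν, (o : E (n + 1))⟫ ∧
        ⟪ν, c⟫ ≤ -1}) (G := G) (by
        have hcp : 0 < -⟪(ν₀ : E (n + 1)), c⟫ := by linarith
        refine ⟨(-⟪(ν₀ : E (n + 1)), c⟫)⁻¹ • (ν₀ : E (n + 1)), fun y hy => ?_, ?_, ?_⟩
        · rw [real_inner_smul_left]
          exact mul_nonpos_of_nonneg_of_nonpos (inv_pos.2 hcp).le (hν01 y hy).le
        · rw [real_inner_smul_left]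
          exact mul_nonneg (inv_pos.2 hcp).le hν02
        · rw [real_inner_smul_left]
          have h9 : (-⟪(ν₀ : E (n + 1)), c⟫)⁻¹ * ⟪(ν₀ : E (n + 1)), c⟫ = -1 := by
            rw [inv_neg, neg_mul, inv_mul_cancel₀ hc1.ne]
          rw [h9]) (by
        have e : {ν : E (n + 1) | (∀ y ∈ Ω, ⟪ν, (y : E (n + 1))⟫ ≤ 0) ∧
            0 ≤ ⟪ν, (o : E (n + 1))⟫ ∧ ⟪ν, c⟫ ≤ -1} =
            (⋂ y ∈ Ω, {ν : E (n + 1) | ⟪ν, (y : E (n + 1))⟫ ≤ 0}) ∩
              ({ν : E (n + 1) | 0 ≤ ⟪ν, (o : E (n + 1))⟫} ∩ {ν : E (n + 1) | ⟪ν, c⟫ ≤ -1}) := by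
          ext ν
          simp
        rw [e]
        refine (isClosed_biInter fun y _ =>
          isClosed_le (continuous_id.inner continuous_const) continuous_const).inter
          ((isClosed_le continuous_const (continuous_id.inner continuous_const)).inter
          (isClosed_le (continuous_id.inner continuous_const) continuous_const))) (by
        rintro a ⟨ha1, ha2, ha3⟩ b ⟨hb1, hb2, hb3⟩ s t hs ht hst
        refine ⟨fun y hy => ?_, ?_, ?_⟩
        · rw [inner_add_left, real_inner_smul_left, real_inner_smul_left]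
          nlinarith [mul_nonneg hs (neg_nonneg.2 (ha1 y hy)), mul_nonneg ht (neg_nonneg.2 (hb1 y hy))]
        · rw [inner_add_left, real_inner_smul_left, real_inner_smul_left]
          positivity
        · rw [inner_add_left, real_inner_smul_left, real_inner_smul_left]
          nlinarith) (by
        rintro Φ hΦ v ⟨hv1, hv2, hv3⟩
        refine ⟨fun y hy => ?_, ?_, ?_⟩
        · rw [inner_symm]
          have : act Φ y ∈ Ω := by
            rw [← hG Φ hΦ]
            exact mem_image_of_mem _ hy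
          exact hv1 _ this
        · rw [inner_symm, hoG Φ hΦ]
          exact hv2
        · rw [inner_symm, hcG Φ hΦ]
          exact hv3)
    have hν10 : ν₁ ≠ 0 := by
      rintro rfl
      rw [inner_zero_left] at hν13
      linarith
    have hνp : 0 < ‖ν₁‖ := norm_pos_iff.2 hν10
    obtain ⟨ν, hνe⟩ : ∃ ν : Sp n, ν = nrm ν₁ := ⟨_, rfl⟩
    have hνc : (ν : E (n + 1)) = ‖ν₁‖⁻¹ • ν₁ := by rw [hνe, coe_nrm hν10]
    have hνG : ∀ Φ ∈ G, Φ (ν : E (n + 1)) = ν := fun Φ hΦ => by
      rw [hνc, map_smul, hν1G Φ hΦ]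
    have hν1 : ∀ y ∈ Ω, ⟪(ν : E (n + 1)), (y : E (n + 1))⟫ < 0 := fun y hy => by
      rw [hνc, real_inner_smul_left]
      exact mul_neg_of_pos_of_neg (inv_pos.2 hνp) (hd_neg h hν10 hν11 hy)
    have hν2 : 0 ≤ ⟪(ν : E (n + 1)), (o : E (n + 1))⟫ := by
      rw [hνc, real_inner_smul_left]
      exact mul_nonneg (inv_pos.2 hνp).le hν12
    obtain ⟨p₁, hp₁, hp₂⟩ := exists_mid h
    have hside := hd_side_pos hn h hp₁ hp₂ hν1
    have hcν : Continuous (fun x : Sp n => ⟪(ν : E (n + 1)), (x : E (n + 1))⟫) :=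
      continuous_const.inner continuous_subtype_val
    have hνf : ∀ x ∈ frontier Ω, ⟪(ν : E (n + 1)), (x : E (n + 1))⟫ ≤ 0 := by
      intro x hx
      have h1 : closure Ω ⊆ {x | ⟪(ν : E (n + 1)), (x : E (n + 1))⟫ ≤ 0} :=
        closure_minimal (fun y hy => (hν1 y hy).le) (isClosed_le hcν continuous_const)
      exact h1 (frontier_subset_closure hx)
    rcases hν2.eq_or_lt with h0 | h0
    · -- the centre is on the boundary of the half space
      have h1 := hstat ν hνG (by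
        rw [real_inner_comm]
        exact h0.symm)
      have hf0 : ∀ x ∈ frontier Ω, 0 ≤ -(H ⟪(o : E (n + 1)), (x : E (n + 1))⟫ *
          ⟪(ν : E (n + 1)), (x : E (n + 1))⟫) := by
        intro x hx
        have h2 := hp _ (inner_mem_Icc o x)
        have h3 := hνf x hx
        nlinarith
      have hint : IntegrableOn (fun x : Sp n => -(H ⟪(o : E (n + 1)), (x : E (n + 1))⟫ *
          ⟪(ν : E (n + 1)), (x : E (n + 1))⟫)) (frontier Ω) (bs n) := by
        have hfm : IsFiniteMeasure ((bs n).restrict (frontier Ω)) :=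
          ⟨by rw [Measure.restrict_apply_univ]; exact hfin⟩
        have hc : Continuous (fun x : Sp n => -(H ⟪(o : E (n + 1)), (x : E (n + 1))⟫ *
            ⟪(ν : E (n + 1)), (x : E (n + 1))⟫)) :=
          ((hH.continuous.comp (continuous_const.inner continuous_subtype_val)).mul hcν).neg
        exact hc.integrable_of_hasCompactSupport (HasCompactSupport.of_compactSpace _)
      have h4 : 0 < ∫ x in frontier Ω, -(H ⟪(o : E (n + 1)), (x : E (n + 1))⟫ *
          ⟪(ν : E (n + 1)), (x : E (n + 1))⟫) ∂bs n := by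
        rw [setIntegral_pos_iff_support_of_nonneg_ae
          (ae_restrict_of_forall_mem isClosed_frontier.measurableSet hf0) hint]
        refine hside.trans_le (measure_mono ?_)
        rintro x ⟨hx1, hx2⟩
        refine ⟨?_, hx1⟩
        have hx3 : ⟪(ν : E (n + 1)), (x : E (n + 1))⟫ < 0 := hx2
        have h2 := hp _ (inner_mem_Icc o x)
        rw [Function.mem_support]
        exact (neg_pos.2 (mul_neg_of_pos_of_neg h2 hx3)).ne'
      rw [integral_neg, h1, neg_zero] at h4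
      exact lt_irrefl _ h4
    · -- reflect the centre
      have hn1 : ‖(o : E (n + 1)) - (2 * ⟪(ν : E (n + 1)), (o : E (n + 1))⟫) • (ν : E (n + 1))‖ =
          1 := by
        have h2 : ‖(o : E (n + 1)) - (2 * ⟪(ν : E (n + 1)), (o : E (n + 1))⟫) •
            (ν : E (n + 1))‖ ^ 2 = 1 := by
          rw [@norm_sub_sq_real, norm_smul, norm_coe, norm_coe, real_inner_smul_right,
            real_inner_comm (ν : E (n + 1)) (o : E (n + 1)), Real.norm_eq_abs, mul_one, sq_abs]
          ring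
        exact (pow_eq_one_iff_of_nonneg (norm_nonneg _) two_ne_zero).1 h2
      let o' : Sp n := ⟨(o : E (n + 1)) - (2 * ⟪(ν : E (n + 1)), (o : E (n + 1))⟫) •
        (ν : E (n + 1)), by
          rw [mem_sphere_zero_iff_norm]
          exact hn1⟩
      have hin : ∀ x : Sp n, ⟪(o' : E (n + 1)), (x : E (n + 1))⟫ =
          ⟪(o : E (n + 1)), (x : E (n + 1))⟫ -
            2 * ⟪(ν : E (n + 1)), (o : E (n + 1))⟫ * ⟪(ν : E (n + 1)), (x : E (n + 1))⟫ := by
        intro x
        simp only [o', inner_sub_left, real_inner_smul_left]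
      have hG := Gp_strictAnti hH hp
      have i1 := integrable_Gp (K := frontier Ω) hH hfin o
      have i2 := integrable_Gp (K := frontier Ω) hH hfin o'
      have h4 : 0 < ∫ x in frontier Ω, (Gp H ⟪(o : E (n + 1)), (x : E (n + 1))⟫ -
          Gp H ⟪(o' : E (n + 1)), (x : E (n + 1))⟫) ∂bs n := by
        have hf0 : ∀ x ∈ frontier Ω, 0 ≤ Gp H ⟪(o : E (n + 1)), (x : E (n + 1))⟫ -
            Gp H ⟪(o' : E (n + 1)), (x : E (n + 1))⟫ := by
          intro x hx
          have h5 : ⟪(o : E (n + 1)), (x : E (n + 1))⟫ ≤ ⟪(o' : E (n + 1)), (x : E (n + 1))⟫ := by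
            rw [hin]
            nlinarith [hνf x hx]
          have h6 := hG.antitoneOn (inner_mem_Icc o x) (inner_mem_Icc o' x) h5
          linarith
        rw [setIntegral_pos_iff_support_of_nonneg_ae
          (ae_restrict_of_forall_mem isClosed_frontier.measurableSet hf0) (i1.sub i2)]
        refine hside.trans_le (measure_mono ?_)
        rintro x ⟨hx1, hx2⟩
        refine ⟨?_, hx1⟩
        have hx3 : ⟪(ν : E (n + 1)), (x : E (n + 1))⟫ < 0 := hx2
        have h5 : ⟪(o : E (n + 1)), (x : E (n + 1))⟫ < ⟪(o' : E (n + 1)), (x : E (n + 1))⟫ := by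
          rw [hin]
          nlinarith
        have h6 := hG (inner_mem_Icc o x) (inner_mem_Icc o' x) h5
        rw [Function.mem_support]
        linarith
      rw [integral_sub i1 i2] at h4
      have h7 := ho o' (by
        rw [hV, mem_setOf_eq]
        intro Φ hΦ
        simp only [o', map_sub, map_smul, hoG Φ hΦ, hνG Φ hΦ])
      linarith

  · intro v hv
    obtain ⟨c, hcG, hc⟩ := integral_vec (μ := bs n) (A := frontier Ω) hfin (G := G)
      (fun Φ hΦ u => by rw [← setIntegral_bs_act, act_frontier, hG Φ hΦ])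
      (g := fun x => H ⟪(o : E (n + 1)), (x : E (n + 1))⟫)
      (hH.continuous.comp (continuous_const.inner continuous_subtype_val)) (fun Φ hΦ x => by
        have h1 : ⟪(o : E (n + 1)), (act Φ x : E (n + 1))⟫ = ⟪(o : E (n + 1)), (x : E (n + 1))⟫ := by
          conv_lhs => rw [← hoG Φ hΦ]
          exact Φ.inner_map_map _ _
        simp only [h1])
    have hoo : ⟪(o : E (n + 1)), (o : E (n + 1))⟫ = 1 := by
      rw [real_inner_self_eq_norm_sq, norm_coe, one_pow]
    obtain ⟨u, hu⟩ : ∃ u : E (n + 1), u = c - ⟪(o : E (n + 1)), c⟫ • (o : E (n + 1)) := ⟨_, rfl⟩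
    have huG : ∀ Φ ∈ G, Φ u = u := fun Φ hΦ => by
      rw [hu, map_sub, map_smul, hcG Φ hΦ, hoG Φ hΦ]
    have huo : ⟪(o : E (n + 1)), u⟫ = 0 := by
      rw [hu, inner_sub_right, real_inner_smul_right, hoo]
      ring
    have hu0 : u = 0 := by
      by_contra hne
      have hup : 0 < ‖u‖ := norm_pos_iff.2 hne
      have h1 := hstat (nrm u) (fun Φ hΦ => by rw [coe_nrm hne, map_smul, huG Φ hΦ]) (by
        rw [coe_nrm hne, real_inner_smul_right, huo, mul_zero])
      rw [hc, coe_nrm hne, real_inner_smul_left] at h1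
      have h2 : ⟪u, c⟫ = 0 := by
        rcases mul_eq_zero.1 h1 with h3 | h3
        · exact absurd h3 (inv_pos.2 hup).ne'
        · exact h3
      have h3 : ⟪u, u⟫ = 0 := by
        have : ⟪u, c - ⟪(o : E (n + 1)), c⟫ • (o : E (n + 1))⟫ = 0 := by
          rw [inner_sub_right, real_inner_smul_right, h2, real_inner_comm (o : E (n + 1)) u, huo,
            mul_zero, sub_zero]
        rwa [← hu] at this
      exact hne (inner_self_eq_zero.1 h3)
    rw [hc v]
    have h1 : c = ⟪(o : E (n + 1)), c⟫ • (o : E (n + 1)) := by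
      rw [← sub_eq_zero, ← hu]
      exact hu0
    rw [h1, real_inner_smul_right, real_inner_comm (o : E (n + 1)) v, hv, mul_zero]

theorem exists_center_all (hn : 2 ≤ n) {Ω : Set (Sp n)} (h : Hd Ω) {H : ℝ → ℝ}
    (hH : ContDiff ℝ 1 H) (hp : ∀ c ∈ Icc (-1 : ℝ) 1, 0 < H c) :
    ∃ o ∈ Ω, ∀ v : E (n + 1), ⟪(o : E (n + 1)), v⟫ = 0 →
      ∫ x in frontier Ω, H ⟪(o : E (n + 1)), (x : E (n + 1))⟫ * ⟪v, (x : E (n + 1))⟫ ∂bs n =
        0 := by
  obtain ⟨o, ho, -, hint⟩ := exists_center_S hn h (G := ∅) (by simp) hH hp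
  exact ⟨o, ho, hint⟩

end Pool.Agent.H62.SZ
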